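import Mathlib

/-!
# Rational self-maps of projective space and linear recurrences
-/

namespace Pool.Agent.H9.DegSeq

open MvPolynomial

variable {K : Type} [Field K] {N : ℕ}

/-- A tuple `f₀, …, f_N` of polynomials in `X₀, …, X_N`. -/
abbrev Tuple (K : Type) [Field K] (N : ℕ) : Type := Fin (N + 1) → MvPolynomial (Fin (N + 1)) K

/-- The polynomials of the tuple are forms of degree `e` without a common factor. -/
def IsReduced (g : Tuple K N) (e : ℕ) : Prop :=
  (∀ i, (g i).IsHomogeneous e) ∧ ∀ h : MvPolynomial (Fin (N + 1)) K, (∀ i, h ∣ g i) → IsUnit h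

/-- The rational map given by the tuple `f` has degree `e`: after division by a nonzero common
factor the tuple consists of forms of degree `e` without a common factor. -/
def HasDegree (f : Tuple K N) (e : ℕ) : Prop :=
  ∃ (q : MvPolynomial (Fin (N + 1)) K) (g : Tuple K N),
    q ≠ 0 ∧ (∀ i, f i = q * g i) ∧ IsReduced g e

/-- The `n`-fold composition of `f`, computed by substitution. -/
noncomputable def iter (f : Tuple K N) : ℕ → Tuple K N
  | 0 => X
  | n + 1 => fun i => bind₁ (iter f n) (f i)

/-- `(L_n)_{n ≥ 1}` satisfies a linear recurrence with constant coefficients. -/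
def IsLinRec (L : ℕ → ℂ) : Prop :=
  ∃ (m : ℕ) (c : Fin m → ℂ), 1 ≤ m ∧ ∀ n, 1 ≤ n → L (n + m) = ∑ i, c i * L (n + i)

end Pool.Agent.H9.DegSeq
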