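import Pool.Agent.H9.DegSeq.Map

namespace Pool.Agent.H9.DegSeq

open MvPolynomial

section

variable {K : Type} [Field K]

/-- the polynomial that must not vanish -/
noncomputable def Del (t : K) : MvPolynomial (Fin 5) K :=
  C (1 + t) * X 2 * X 0 - C t * X 3 * X 0 + C (1 + t + t ^ 2) * X 1 ^ 2

theorem Del_ne_zero (t : K) (ht : t ≠ 0) : Del t ≠ 0 := by
  intro h
  have := congrArg (eval (![1, 0, 0, 1, 0] : Fin 5 → K)) h
  simp [Del] at this
  exact ht this

theorem exists_preimage (t : K) (ht : t ≠ 0) (ht1 : 1 + t ≠ 0) (u : K) (hu : u ≠ 0)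
    (y : Fin 5 → K) (hy0 : y 0 = u ^ 3) (hy : eval y (Del t) ≠ 0) :
    ∃ v : Fin 5 → K, ∀ i, eval v (ff t i) = y i := by
  set s := y 1 / u ^ 2 with hs
  set a := (y 2 / u - (t - 1) * s ^ 2) / (t * u) with ha
  set b := (y 3 / u - t * s ^ 2) / ((1 + t) * u) with hb
  have hc : (a - b) * u + s ^ 2 ≠ 0 := by
    intro h
    apply hy
    have h1 : eval y (Del t) = ((a - b) * u + s ^ 2) * (t * (1 + t) * u ^ 4) := by
      simp only [Del, map_add, map_sub, map_mul, eval_C, eval_X, map_pow, hy0, ha, hb, hs]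
      field_simp
      ring
    rw [h1, h, zero_mul]
  refine ⟨![u, s, a, b, y 4 / ((a - b) * u + s ^ 2)], fun i => ?_⟩
  fin_cases i
  · simp [ff, hy0]
  · simp [ff, hs]
    field_simp
  · simp [ff, ha]
    field_simp
    ring
  · simp [ff, hb]
    field_simp
    ring
  · simp [ff]
    field_simp

theorem aeval_eval (g : Fin 5 → MvPolynomial (Fin 5) K) (v : Fin 5 → K)
    (F : MvPolynomial (Fin 5) K) :
    eval v (aeval g F) = eval (fun i => eval v (g i)) F := by
  rw [MvPolynomial.aeval_def, MvPolynomial.hom_eval₂]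
  rw [MvPolynomial.eval, MvPolynomial.coe_eval₂Hom]
  congr 1
  ext a; simp

theorem algIndep (t : K) (ht : t ≠ 0) (ht1 : 1 + t ≠ 0)
    (hinj : Function.Injective (fun n : ℕ => t ^ n)) : AlgebraicIndependent K (ff t) := by
  haveI : Infinite K := Infinite.of_injective _ hinj
  rw [algebraicIndependent_iff]
  intro P hP
  have hinf : Set.Infinite {x : K | ∃ u : K, u ≠ 0 ∧ x = u ^ 3} := by
    refine Set.infinite_of_injective_forall_mem (f := fun n : ℕ => (t ^ n) ^ 3) ?_ ?_
    · intro m n hmn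
      have h1 : t ^ (m * 3) = t ^ (n * 3) := by
        rw [pow_mul, pow_mul]
        exact hmn
      have := hinj h1
      omega
    · intro n
      exact ⟨t ^ n, pow_ne_zero _ ht, rfl⟩
  have h1 : Del t * P = 0 := by
    refine funext_set (fun i : Fin 5 => if i = 0 then {x : K | ∃ u : K, u ≠ 0 ∧ x = u ^ 3}
      else Set.univ) (fun i => ?_) (fun x hx => ?_)
    · split_ifs
      · exact hinf
      · exact Set.infinite_univ
    · rw [map_mul, map_zero]
      have hx0 := hx 0 (Set.mem_univ _)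
      simp only [if_pos] at hx0
      obtain ⟨u, hu, hxu⟩ := hx0
      by_cases hd : eval x (Del t) = 0
      · rw [hd, zero_mul]
      · obtain ⟨v, hv⟩ := exists_preimage t ht ht1 u hu x hxu hd
        have h2 : eval x P = eval v (aeval (ff t) P) := by
          rw [aeval_eval]
          congr 2
          funext i
          exact (hv i).symm
        rw [h2, hP, map_zero, mul_zero]
  exact (mul_eq_zero.1 h1).resolve_left (Del_ne_zero t ht)

end

/-- the field `F₂(t)` -/
abbrev F2t : Type := FractionRing (Polynomial (ZMod 2))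

noncomputable def tt : F2t := algebraMap (Polynomial (ZMod 2)) F2t Polynomial.X

theorem am_inj : Function.Injective (algebraMap (Polynomial (ZMod 2)) F2t) :=
  IsFractionRing.injective _ _

theorem tt_ne_zero : tt ≠ 0 := by
  rw [tt, Ne, map_eq_zero_iff _ am_inj]
  exact Polynomial.X_ne_zero

theorem one_add_tt_ne_zero : 1 + tt ≠ 0 := by
  rw [tt, ← map_one (algebraMap (Polynomial (ZMod 2)) F2t), ← map_add, Ne,
    map_eq_zero_iff _ am_inj]
  intro h
  have := congrArg (fun p => Polynomial.coeff p 1) h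
  simp [Polynomial.coeff_one] at this

theorem tt_pow_inj : Function.Injective (fun n : ℕ => tt ^ n) := by
  intro m n h
  simp only [tt, ← map_pow] at h
  have h1 := am_inj h
  have h2 := congrArg Polynomial.natDegree h1
  simpa using h2

theorem cc_tt (j : ℕ) : cc tt j = algebraMap (Polynomial (ZMod 2)) F2t
    (Polynomial.X ^ j - (1 + Polynomial.X) ^ j + 1) := by
  simp [cc, tt]

theorem frob (i : ℕ) : (1 + Polynomial.X : Polynomial (ZMod 2)) ^ 2 ^ i =
    1 + Polynomial.X ^ 2 ^ i := by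
  rw [add_pow_char_pow, one_pow]

theorem cc_pow (i : ℕ) : cc tt (2 ^ i) = 0 := by
  rw [cc_tt, frob]
  have : (Polynomial.X ^ 2 ^ i - (1 + Polynomial.X ^ 2 ^ i) + 1 : Polynomial (ZMod 2)) = 0 := by
    ring
  rw [this, map_zero]

theorem cc_ne (i j : ℕ) (h1 : 2 ^ i < j) (h2 : j < 2 ^ (i + 1)) : cc tt j ≠ 0 := by
  rw [cc_tt, Ne, map_eq_zero_iff _ am_inj]
  intro h
  obtain ⟨r, rfl⟩ := Nat.exists_eq_add_of_lt h1
  have hr : r + 1 < 2 ^ i := by rw [pow_succ] at h2; omega
  have h3 := congrArg (fun p => Polynomial.coeff p (2 ^ i)) h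
  have hsplit : (1 + Polynomial.X : Polynomial (ZMod 2)) ^ (2 ^ i + r + 1) =
      (1 + Polynomial.X) ^ (r + 1) + Polynomial.X ^ 2 ^ i * (1 + Polynomial.X) ^ (r + 1) := by
    rw [add_assoc, pow_add, frob, add_mul, one_mul]
  have hdeg : ((1 + Polynomial.X : Polynomial (ZMod 2)) ^ (r + 1)).natDegree < 2 ^ i := by
    refine lt_of_le_of_lt (Polynomial.natDegree_pow_le) ?_
    have h4 : (1 + Polynomial.X : Polynomial (ZMod 2)).natDegree ≤ 1 := by
      refine (Polynomial.natDegree_add_le _ _).trans ?_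
      simp
    calc (r + 1) * (1 + Polynomial.X : Polynomial (ZMod 2)).natDegree ≤ (r + 1) * 1 :=
          Nat.mul_le_mul_left _ h4
      _ < 2 ^ i := by omega
  have hpos := Nat.two_pow_pos i
  simp only [hsplit, Polynomial.coeff_add, Polynomial.coeff_sub, Polynomial.coeff_zero,
    Polynomial.coeff_eq_zero_of_natDegree_lt hdeg, Polynomial.coeff_X_pow, Polynomial.coeff_one]
    at h3
  rw [if_neg (by omega), if_neg (by omega)] at h3
  have h5 : (Polynomial.X ^ 2 ^ i * (1 + Polynomial.X) ^ (r + 1) :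
      Polynomial (ZMod 2)).coeff (2 ^ i) = 1 := by
    have := Polynomial.coeff_X_pow_mul ((1 + Polynomial.X : Polynomial (ZMod 2)) ^ (r + 1))
      (2 ^ i) 0
    rw [zero_add] at this
    rw [this, Polynomial.coeff_zero_eq_eval_zero]
    simp
  rw [h5] at h3
  simp at h3

theorem main : ∃ (f : Tuple (FractionRing (Polynomial (ZMod 2))) 4) (D : ℕ → ℕ),
    IsReduced f 3 ∧ AlgebraicIndependent (FractionRing (Polynomial (ZMod 2))) f ∧
      (∀ n, 1 ≤ n → HasDegree (iter f n) (D n)) ∧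
      (∀ k n, 2 ^ k < n → n ≤ 2 ^ (k + 1) → D n + k = 2 * n) ∧
      ¬ ∃ (r : ℕ) (L : Fin r → ℕ → ℂ) (ι : ℕ → Fin r), (∀ i, IsLinRec (L i)) ∧
        ∀ n, 1 ≤ n → (D n : ℂ) = L (ι n) n := by
  have hD := deg_formula tt cc_pow cc_ne (fun n => MM tt (n - 1) + 2) (fun k => rfl)
  refine ⟨ff tt, fun n => MM tt (n - 1) + 2, ⟨ff_hom tt, ?_⟩,
    algIndep tt tt_ne_zero one_add_tt_ne_zero tt_pow_inj, ?_, hD, no_rec _ hD⟩
  · intro h hh
    refine GG_coprime tt tt_ne_zero 0 h ?_
    rwa [GG_zero]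
  · intro n hn
    obtain ⟨m, rfl⟩ : ∃ m, n = m + 1 := ⟨n - 1, by omega⟩
    exact hasDegree tt tt_ne_zero m

end Pool.Agent.H9.DegSeq
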