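import Pool.Agent.H9.DegSeq.Seq

namespace Pool.Agent.H9.DegSeq

open MvPolynomial

variable {K : Type} [Field K]

/-- the map -/
noncomputable def ff (t : K) : Tuple K 4 :=
  ![X 0 ^ 3, X 1 * X 0 ^ 2,
    (C t * X 2 * X 0 + C (t - 1) * X 1 ^ 2) * X 0,
    (C (1 + t) * X 3 * X 0 + C t * X 1 ^ 2) * X 0,
    X 4 * ((X 2 - X 3) * X 0 + X 1 ^ 2)]

/-- the coefficient that decides the degree -/
def cc (t : K) (j : ℕ) : K := t ^ j - (1 + t) ^ j + 1

open Classical in
/-- the degree of the factor -/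
noncomputable def ee (t : K) (j : ℕ) : ℕ := if cc t j = 0 then 1 else 2

open Classical in
/-- the factor -/
noncomputable def HH (t : K) (j : ℕ) : MvPolynomial (Fin 5) K :=
  if cc t j = 0 then C (t ^ j) * X 2 - C ((1 + t) ^ j) * X 3
  else (C (t ^ j) * X 2 - C ((1 + t) ^ j) * X 3) * X 0 + C (cc t j) * X 1 ^ 2

/-- the degree minus two -/
noncomputable def MM (t : K) : ℕ → ℕ
  | 0 => 1
  | k + 1 => MM t k + ee t (k + 1)

/-- the reduced iterates -/
noncomputable def GG (t : K) (k : ℕ) : Tuple K 4 :=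
  ![X 0 ^ (MM t k + 2), X 1 * X 0 ^ (MM t k + 1),
    (C (t ^ (k + 1)) * X 2 * X 0 + C (t ^ (k + 1) - 1) * X 1 ^ 2) * X 0 ^ MM t k,
    (C ((1 + t) ^ (k + 1)) * X 3 * X 0 + C ((1 + t) ^ (k + 1) - 1) * X 1 ^ 2) * X 0 ^ MM t k,
    X 4 * ∏ j ∈ Finset.range (k + 1), HH t j]

theorem cc_zero (t : K) : cc t 0 = 1 := by simp [cc]

theorem HH_zero (t : K) : HH t 0 = (X 2 - X 3) * X 0 + X 1 ^ 2 := by
  rw [HH, if_neg (by rw [cc_zero]; exact one_ne_zero), cc_zero]
  simp

theorem comp_GG (t : K) (k : ℕ) : ∃ N, ∀ i, bind₁ (GG t k) (ff t i) = X 0 ^ N * GG t (k + 1) i := by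
  have hH : (C (t ^ (k + 1)) * X 2 - C ((1 + t) ^ (k + 1)) * X 3) * X 0 +
      C (cc t (k + 1)) * X 1 ^ 2 = HH t (k + 1) * X 0 ^ (2 - ee t (k + 1)) := by
    rw [HH, ee]
    split_ifs with h
    · rw [h]; simp
    · simp
  have hH' : (C (t ^ (k + 1)) * X 2 - C ((1 + t) ^ (k + 1)) * X 3) * X 0 +
      (C (t ^ (k + 1)) - C ((1 + t) ^ (k + 1)) + 1) * X 1 ^ 2 =
      HH t (k + 1) * X 0 ^ (2 - ee t (k + 1)) := by
    rw [← hH, cc]
    simp
  have he : ee t (k + 1) = 1 ∨ ee t (k + 1) = 2 := by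
    rw [ee]; split_ifs <;> simp
  refine ⟨2 * MM t k + 4 - ee t (k + 1), fun i => ?_⟩
  have hM : MM t (k + 1) = MM t k + ee t (k + 1) := rfl
  have hpow : ∀ (m : ℕ) (a : ℕ), a = m → (X 0 : MvPolynomial (Fin 5) K) ^ a = X 0 ^ m := by
    rintro m a rfl; rfl
  have hprod : ∏ j ∈ Finset.range (k + 1 + 1), HH t j =
      (∏ j ∈ Finset.range (k + 1), HH t j) * HH t (k + 1) := Finset.prod_range_succ _ _
  have ht : t ^ (k + 1 + 1) = t * t ^ (k + 1) := pow_succ' _ _
  have hu : (1 + t) ^ (k + 1 + 1) = (1 + t) * (1 + t) ^ (k + 1) := pow_succ' _ _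
  fin_cases i
  · simp only [ff, GG, hM, Fin.zero_eta, Matrix.cons_val_zero, map_pow, bind₁_X_right]
    rw [← pow_mul, ← pow_add]
    congr 1
    omega
  · simp only [ff, GG, hM, Fin.mk_one, Matrix.cons_val_one, Matrix.cons_val_zero, map_pow, map_mul,
      bind₁_X_right]
    rcases he with he | he <;> rw [he]
    · rw [hpow (2 * MM t k + 3) (2 * MM t k + 4 - 1) (by omega)]; ring
    · rw [hpow (2 * MM t k + 2) (2 * MM t k + 4 - 2) (by omega)]; ring
  · simp only [ff, GG, hM, Fin.reduceFinMk, Matrix.cons_val, map_pow, map_mul, map_add, map_sub,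
      bind₁_X_right, bind₁_C_right, Matrix.cons_val_zero, Matrix.cons_val_one, ht, map_one]
    rcases he with he | he <;> rw [he]
    · rw [hpow (2 * MM t k + 3) (2 * MM t k + 4 - 1) (by omega)]; ring
    · rw [hpow (2 * MM t k + 2) (2 * MM t k + 4 - 2) (by omega)]; ring
  · simp only [ff, GG, hM, Fin.reduceFinMk, Matrix.cons_val, map_pow, map_mul, map_add, map_sub,
      bind₁_X_right, bind₁_C_right, Matrix.cons_val_zero, Matrix.cons_val_one, hu, map_one]
    rcases he with he | he <;> rw [he]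
    · rw [hpow (2 * MM t k + 3) (2 * MM t k + 4 - 1) (by omega)]; ring
    · rw [hpow (2 * MM t k + 2) (2 * MM t k + 4 - 2) (by omega)]; ring
  · simp only [ff, GG, Fin.reduceFinMk, Matrix.cons_val, map_pow, map_mul, map_add, map_sub,
      bind₁_X_right, Matrix.cons_val_zero, Matrix.cons_val_one, hprod, map_one]
    simp only [map_pow, map_add, map_sub, map_one] at hH'
    rcases he with he | he <;> rw [he] at hH' ⊢
    · rw [hpow (2 * MM t k + 3) (2 * MM t k + 4 - 1) (by omega)]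
      linear_combination (X 4 * (∏ j ∈ Finset.range (k + 1), HH t j) * X 0 ^ (2 * MM t k + 2)) * hH'
    · rw [hpow (2 * MM t k + 2) (2 * MM t k + 4 - 2) (by omega)]
      linear_combination (X 4 * (∏ j ∈ Finset.range (k + 1), HH t j) * X 0 ^ (2 * MM t k + 2)) * hH'

theorem ff_hom (t : K) : ∀ i, (ff t i).IsHomogeneous 3 := by
  have hX : ∀ i : Fin 5, (X i : MvPolynomial (Fin 5) K).IsHomogeneous 1 := isHomogeneous_X K
  have hC : ∀ a : K, (C a : MvPolynomial (Fin 5) K).IsHomogeneous 0 := isHomogeneous_C _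
  intro i
  fin_cases i
  · exact (hX 0).pow 3
  · exact (hX 1).mul ((hX 0).pow 2)
  · exact ((((hC _).mul (hX 2)).mul (hX 0)).add ((hC _).mul ((hX 1).pow 2))).mul (hX 0)
  · exact ((((hC _).mul (hX 3)).mul (hX 0)).add ((hC _).mul ((hX 1).pow 2))).mul (hX 0)
  · exact (hX 4).mul ((((hX 2).sub (hX 3)).mul (hX 0)).add ((hX 1).pow 2))

theorem GG_zero (t : K) : GG t 0 = ff t := by
  funext i
  fin_cases i
  · simp [GG, ff, MM]
  · simp [GG, ff, MM]
  · simp [GG, ff, MM]
  · simp [GG, ff, MM]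
  · simp [GG, ff, HH_zero]

theorem bind_scale {F : MvPolynomial (Fin 5) K} {d : ℕ} (hF : F.IsHomogeneous d)
    (r : MvPolynomial (Fin 5) K) (g : Fin 5 → MvPolynomial (Fin 5) K) :
    bind₁ (fun i => r * g i) F = r ^ d * bind₁ g F := by
  rw [F.as_sum, map_sum, map_sum, Finset.mul_sum]
  refine Finset.sum_congr rfl fun e he => ?_
  have hd : e.degree = d := by
    by_contra hne
    exact (MvPolynomial.mem_support_iff.1 he) (hF.coeff_eq_zero hne)
  have hd' : ∑ i ∈ e.support, e i = d := hd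
  rw [bind₁_monomial, bind₁_monomial]
  simp only [mul_pow, Finset.prod_mul_distrib]
  rw [Finset.prod_pow_eq_pow_sum, hd']
  ring

theorem iter_eq (t : K) (k : ℕ) : ∃ N, ∀ i, iter (ff t) (k + 1) i = X 0 ^ N * GG t k i := by
  induction k with
  | zero =>
    refine ⟨0, fun i => ?_⟩
    rw [GG_zero, pow_zero, one_mul]
    change bind₁ X (ff t i) = ff t i
    rw [bind₁_X_left]
    rfl
  | succ k ih =>
    obtain ⟨N, hN⟩ := ih
    obtain ⟨N', hN'⟩ := comp_GG t k
    refine ⟨3 * N + N', fun i => ?_⟩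
    have h1 : iter (ff t) (k + 1) = fun i => X 0 ^ N * GG t k i := funext hN
    change bind₁ (iter (ff t) (k + 1)) (ff t i) = _
    rw [h1]
    have h2 : bind₁ (fun i => X 0 ^ N * GG t k i) (ff t i) = (X 0 ^ N) ^ 3 * bind₁ (GG t k) (ff t i) :=
      bind_scale (ff_hom t i) _ _
    rw [h2, hN', ← pow_mul, pow_add, mul_comm N 3]
    ring

theorem HH_hom (t : K) (j : ℕ) : (HH t j).IsHomogeneous (ee t j) := by
  have hX : ∀ i : Fin 5, (X i : MvPolynomial (Fin 5) K).IsHomogeneous 1 := isHomogeneous_X K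
  have hC : ∀ a : K, (C a : MvPolynomial (Fin 5) K).IsHomogeneous 0 := isHomogeneous_C _
  have h1 : (C (t ^ j) * X 2 - C ((1 + t) ^ j) * X 3 : MvPolynomial (Fin 5) K).IsHomogeneous 1 :=
    ((hX 2).C_mul _).sub ((hX 3).C_mul _)
  rw [HH, ee]
  split_ifs
  · exact h1
  · exact (h1.mul (hX 0)).add (((hX 1).pow 2).C_mul _)

theorem MM_eq (t : K) (k : ℕ) : MM t k + 2 = 1 + ∑ j ∈ Finset.range (k + 1), ee t j := by
  induction k with
  | zero =>
    rw [Finset.sum_range_one, ee, if_neg (by rw [cc_zero]; exact one_ne_zero), MM]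
  | succ k ih =>
    rw [Finset.sum_range_succ, MM]
    omega

theorem GG_hom (t : K) (k : ℕ) : ∀ i, (GG t k i).IsHomogeneous (MM t k + 2) := by
  have hX : ∀ i : Fin 5, (X i : MvPolynomial (Fin 5) K).IsHomogeneous 1 := isHomogeneous_X K
  have hXp : ∀ n : ℕ, (X 0 ^ n : MvPolynomial (Fin 5) K).IsHomogeneous n := by
    intro n
    simpa using (hX 0).pow n
  intro i
  fin_cases i
  · exact hXp _
  · have := (hX 1).mul (hXp (MM t k + 1))
    rw [show MM t k + 2 = 1 + (MM t k + 1) by omega]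
    exact this
  · have h2 : (C (t ^ (k + 1)) * X 2 * X 0 + C (t ^ (k + 1) - 1) * X 1 ^ 2 :
        MvPolynomial (Fin 5) K).IsHomogeneous 2 :=
      (((hX 2).C_mul _).mul (hX 0)).add (((hX 1).pow 2).C_mul _)
    have := h2.mul (hXp (MM t k))
    rw [show MM t k + 2 = 2 + MM t k by omega]
    exact this
  · have h2 : (C ((1 + t) ^ (k + 1)) * X 3 * X 0 + C ((1 + t) ^ (k + 1) - 1) * X 1 ^ 2 :
        MvPolynomial (Fin 5) K).IsHomogeneous 2 :=
      (((hX 3).C_mul _).mul (hX 0)).add (((hX 1).pow 2).C_mul _)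
    have := h2.mul (hXp (MM t k))
    rw [show MM t k + 2 = 2 + MM t k by omega]
    exact this
  · have h2 := (hX 4).mul (MvPolynomial.IsHomogeneous.prod (Finset.range (k + 1)) (HH t) (ee t)
      (fun j _ => HH_hom t j))
    rw [← MM_eq] at h2
    exact h2

theorem GG_coprime (t : K) (ht : t ≠ 0) (k : ℕ) (h : MvPolynomial (Fin 5) K)
    (hh : ∀ i, h ∣ GG t k i) : IsUnit h := by
  have h0 : h ∣ X 0 ^ (MM t k + 2) := hh 0
  have h4 : h ∣ X 4 * ∏ j ∈ Finset.range (k + 1), HH t j := hh 4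
  obtain ⟨n, hn, hass⟩ := (dvd_prime_pow (X_prime (i := (0 : Fin 5)) (R := K)) _).1 h0
  rcases Nat.eq_zero_or_pos n with hn0 | hn0
  · subst hn0
    rw [pow_zero] at hass
    exact associated_one_iff_isUnit.1 hass
  · exfalso
    have h5 : (X 0 : MvPolynomial (Fin 5) K) ∣ X 4 * ∏ j ∈ Finset.range (k + 1), HH t j :=
      (dvd_pow_self _ (by omega)).trans (hass.symm.dvd.trans h4)
    obtain ⟨w, hw⟩ := h5
    have h6 := congrArg (eval (![0, 1, 1, 0, 1] : Fin 5 → K)) hw
    rw [map_mul, map_mul, map_prod, eval_X, eval_X] at h6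
    have e0 : (![0, 1, 1, 0, 1] : Fin 5 → K) 0 = 0 := rfl
    have e4 : (![0, 1, 1, 0, 1] : Fin 5 → K) 4 = 1 := rfl
    rw [e0, e4, one_mul, zero_mul, Finset.prod_eq_zero_iff] at h6
    obtain ⟨j, -, hj⟩ := h6
    rw [HH] at hj
    split_ifs at hj with hc
    · simp [ht] at hj
    · simp at hj
      exact hc hj

theorem hasDegree (t : K) (ht : t ≠ 0) (k : ℕ) : HasDegree (iter (ff t) (k + 1)) (MM t k + 2) := by
  obtain ⟨N, hN⟩ := iter_eq t k
  exact ⟨X 0 ^ N, GG t k, pow_ne_zero _ (X_ne_zero 0), hN, GG_hom t k, GG_coprime t ht k⟩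

/-- the degree sequence -/
theorem deg_formula (t : K) (h2 : ∀ i, cc t (2 ^ i) = 0)
    (h3 : ∀ i j, 2 ^ i < j → j < 2 ^ (i + 1) → cc t j ≠ 0) (D : ℕ → ℕ)
    (hD : ∀ k, D (k + 1) = MM t k + 2) :
    ∀ k n, 2 ^ k < n → n ≤ 2 ^ (k + 1) → D n + k = 2 * n := by
  have step : ∀ n, 1 ≤ n → D (n + 1) = D n + ee t n := by
    intro n hn
    obtain ⟨m, rfl⟩ : ∃ m, n = m + 1 := ⟨n - 1, by omega⟩
    rw [hD, hD, MM]
    ring
  have hD1 : D 1 = 3 := by rw [hD 0]; rfl
  have hpow : ∀ i, ee t (2 ^ i) = 1 := fun i => by rw [ee, if_pos (h2 i)]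
  have key : ∀ n, 2 ≤ n → ∀ k, 2 ^ k < n → n ≤ 2 ^ (k + 1) → D n + k = 2 * n := by
    intro n hn
    induction n, hn using Nat.le_induction with
    | base =>
      intro k hk1 hk2
      have hk : k = 0 := by
        by_contra hne
        have : 2 ^ 1 ≤ 2 ^ k := Nat.pow_le_pow_right (by norm_num) (by omega)
        omega
      subst hk
      have := step 1 le_rfl
      have h4 := hpow 0
      rw [pow_zero] at h4
      rw [this, hD1, h4]
    | succ n hn ih =>
      intro k hk1 hk2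
      rw [step n (by omega)]
      rcases Nat.lt_or_ge (2 ^ k) n with hlt | hge
      · have h4 := ih k hlt (by omega)
        have h5 : ee t n = 2 := by rw [ee, if_neg (h3 k n hlt (by omega))]
        omega
      · have hnk : n = 2 ^ k := by omega
        obtain ⟨k', rfl⟩ : ∃ k', k = k' + 1 := by
          refine ⟨k - 1, ?_⟩
          rcases Nat.eq_zero_or_pos k with h | h
          · subst h; omega
          · omega
        have h4 := ih k' (by rw [hnk, pow_succ]; have := Nat.two_pow_pos k'; omega) (by omega)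
        have h5 := hpow (k' + 1)
        rw [← hnk] at h5
        omega
  intro k n h4 h5
  refine key n ?_ k h4 h5
  have := Nat.two_pow_pos k
  omega

end Pool.Agent.H9.DegSeq
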