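import Pool.Agent.H9.DegSeq.Defs

namespace Pool.Agent.H9.DegSeq

/-- the shift -/
def sh : (ℕ → ℂ) →ₐ[ℂ] (ℕ → ℂ) where
  toFun u := fun n => u (n + 1)
  map_one' := rfl
  map_mul' _ _ := rfl
  map_zero' := rfl
  map_add' _ _ := rfl
  commutes' _ := rfl

theorem sh_apply (u : ℕ → ℂ) (n : ℕ) : sh u n = u (n + 1) := rfl

/-- a finitely generated shift-invariant space -/
def Inv (V : Submodule ℂ (ℕ → ℂ)) : Prop := V.FG ∧ ∀ u ∈ V, sh u ∈ V

theorem Inv.sup {V W : Submodule ℂ (ℕ → ℂ)} (hV : Inv V) (hW : Inv W) : Inv (V ⊔ W) := by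
  refine ⟨hV.1.sup hW.1, fun u hu => ?_⟩
  obtain ⟨v, hv, w, hw, rfl⟩ := Submodule.mem_sup.1 hu
  rw [map_add]
  exact Submodule.add_mem _ (Submodule.mem_sup_left (hV.2 v hv))
    (Submodule.mem_sup_right (hW.2 w hw))

theorem Inv.mul {V W : Submodule ℂ (ℕ → ℂ)} (hV : Inv V) (hW : Inv W) : Inv (V * W) := by
  refine ⟨hV.1.mul hW.1, fun u hu => ?_⟩
  refine Submodule.mul_induction_on (C := fun u => sh u ∈ V * W) hu (fun v hv w hw => ?_)
    (fun a b ha hb => ?_)
  · rw [map_mul]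
    exact Submodule.mul_mem_mul (hV.2 v hv) (hW.2 w hw)
  · rw [map_add]
    exact Submodule.add_mem _ ha hb

theorem exists_prod {ι : Type} [DecidableEq ι] (V : ι → Submodule ℂ (ℕ → ℂ)) (hV : ∀ i, Inv (V i))
    (s : Finset ι) : ∃ W, Inv W ∧ ∀ v : ι → (ℕ → ℂ), (∀ i, v i ∈ V i) → ∏ i ∈ s, v i ∈ W := by
  induction s using Finset.induction_on with
  | empty =>
    refine ⟨Submodule.span ℂ {1}, ⟨Submodule.fg_span_singleton 1, fun u hu => ?_⟩, fun v _ => ?_⟩
    · obtain ⟨c, rfl⟩ := Submodule.mem_span_singleton.1 hu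
      rw [map_smul, map_one]
      exact Submodule.smul_mem _ _ (Submodule.mem_span_singleton_self _)
    · rw [Finset.prod_empty]
      exact Submodule.mem_span_singleton_self _
  | insert i s hi ih =>
    obtain ⟨W, hW, hp⟩ := ih
    refine ⟨V i * W, (hV i).mul hW, fun v hv => ?_⟩
    rw [Finset.prod_insert hi]
    exact Submodule.mul_mem_mul (hv i) (hp v hv)

theorem exists_order {W : Submodule ℂ (ℕ → ℂ)} (hW : Inv W) : ∃ d : ℕ, ∀ u ∈ W, ∀ n0,
    (∀ j < d, u (n0 + j) = 0) → ∀ n, n0 ≤ n → u n = 0 := by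
  haveI : Module.Finite ℂ W := Module.Finite.iff_fg.2 hW.1
  let T : W →ₗ[ℂ] W := sh.toLinearMap.restrict (fun u hu => hW.2 u hu)
  have hT : ∀ (j : ℕ) (u : W) (n : ℕ), ((T ^ j) u : ℕ → ℂ) n = (u : ℕ → ℂ) (n + j) := by
    intro j
    induction j with
    | zero => intro u n; rfl
    | succ j ih =>
      intro u n
      rw [pow_succ, Module.End.mul_apply, ih]
      change (u : ℕ → ℂ) (n + j + 1) = _
      rw [add_assoc]
  refine ⟨T.charpoly.natDegree, fun u hu n0 h0 => ?_⟩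
  have hrec : ∀ n, u (n + T.charpoly.natDegree) =
      - ∑ j ∈ Finset.range T.charpoly.natDegree, T.charpoly.coeff j * u (n + j) := by
    intro n
    have h1 := congrArg (fun S : W →ₗ[ℂ] W => ((S ⟨u, hu⟩ : W) : ℕ → ℂ) n)
      (LinearMap.aeval_self_charpoly T)
    simp only [Polynomial.aeval_eq_sum_range, LinearMap.sum_apply, LinearMap.smul_apply,
      Submodule.coe_sum, Submodule.coe_smul, Finset.sum_apply, Pi.smul_apply, hT, smul_eq_mul,
      LinearMap.zero_apply, ZeroMemClass.coe_zero, Pi.zero_apply] at h1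
    rw [Finset.sum_range_succ] at h1
    have h2 : T.charpoly.coeff T.charpoly.natDegree = 1 := T.charpoly_monic
    rw [h2, one_mul] at h1
    linear_combination h1
  intro n hn
  obtain ⟨m, rfl⟩ := Nat.exists_eq_add_of_le hn
  clear hn
  induction m using Nat.strong_induction_on with
  | _ m ih =>
    by_cases hm : m < T.charpoly.natDegree
    · exact h0 m hm
    · have h1 := hrec (n0 + (m - T.charpoly.natDegree))
      have h2 : n0 + (m - T.charpoly.natDegree) + T.charpoly.natDegree = n0 + m := by omega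
      rw [h2] at h1
      rw [h1, neg_eq_zero]
      refine Finset.sum_eq_zero fun j hj => ?_
      rw [Finset.mem_range] at hj
      have h3 : n0 + (m - T.charpoly.natDegree) + j = n0 + (m - T.charpoly.natDegree + j) := by
        omega
      rw [h3, ih _ (by omega), mul_zero]

theorem exists_inv {L : ℕ → ℂ} (hL : IsLinRec L) : ∃ V, Inv V ∧ sh L ∈ V := by
  obtain ⟨m, c, hm, hrec⟩ := hL
  refine ⟨Submodule.span ℂ (Set.range fun j : Fin m => (fun n => L (n + 1 + j) : ℕ → ℂ)),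
    ⟨Submodule.fg_span (Set.finite_range _), fun u hu => ?_⟩, ?_⟩
  · induction hu using Submodule.span_induction with
    | mem u hu =>
      obtain ⟨j, rfl⟩ := hu
      by_cases hj : (j : ℕ) + 1 < m
      · refine Submodule.subset_span ⟨⟨j + 1, hj⟩, ?_⟩
        funext n
        rw [sh_apply]
        change L (n + 1 + ((j : ℕ) + 1)) = L (n + 1 + 1 + (j : ℕ))
        have e1 : n + 1 + ((j : ℕ) + 1) = n + 1 + 1 + (j : ℕ) := by omega
        rw [e1]
      · have h1 : sh (fun n => L (n + 1 + j) : ℕ → ℂ) =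
            ∑ i : Fin m, c i • (fun n => L (n + 1 + i) : ℕ → ℂ) := by
          funext n
          rw [sh_apply, Finset.sum_apply]
          have h2 := hrec (n + 1) (by omega)
          have h3 : n + 1 + 1 + (j : ℕ) = n + 1 + m := by omega
          simp only [Pi.smul_apply, smul_eq_mul]
          rw [h3, h2]
        rw [h1]
        exact Submodule.sum_mem _ fun i _ => Submodule.smul_mem _ _ (Submodule.subset_span ⟨i, rfl⟩)
    | zero => rw [map_zero]; exact Submodule.zero_mem _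
    | add a b _ _ ha hb => rw [map_add]; exact Submodule.add_mem _ ha hb
    | smul a b _ hb => rw [map_smul]; exact Submodule.smul_mem _ _ hb
  · exact Submodule.subset_span ⟨⟨0, by omega⟩, rfl⟩

theorem no_rec (D : ℕ → ℕ) (hD : ∀ k n, 2 ^ k < n → n ≤ 2 ^ (k + 1) → D n + k = 2 * n) :
    ¬ ∃ (r : ℕ) (L : Fin r → ℕ → ℂ) (ι : ℕ → Fin r), (∀ i, IsLinRec (L i)) ∧
      ∀ n, 1 ≤ n → (D n : ℂ) = L (ι n) n := by
  rintro ⟨r, L, ι, hL, hι⟩
  choose V hV hVL using fun i => exists_inv (hL i)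
  -- the space spanned by `1` and `n`
  let idn : ℕ → ℂ := fun n => (n : ℂ)
  have hU : Inv (Submodule.span ℂ {(1 : ℕ → ℂ)} ⊔ Submodule.span ℂ {idn}) := by
    refine ⟨(Submodule.fg_span_singleton _).sup (Submodule.fg_span_singleton _), fun u hu => ?_⟩
    obtain ⟨v, hv, w, hw, rfl⟩ := Submodule.mem_sup.1 hu
    obtain ⟨a, rfl⟩ := Submodule.mem_span_singleton.1 hv
    obtain ⟨b, rfl⟩ := Submodule.mem_span_singleton.1 hw
    have h1 : sh idn = idn + 1 := by
      funext n
      simp [sh_apply, idn]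
    rw [map_add, map_smul, map_smul, map_one, h1]
    have e1 : (1 : ℕ → ℂ) ∈ Submodule.span ℂ {(1 : ℕ → ℂ)} ⊔ Submodule.span ℂ {idn} :=
      Submodule.mem_sup_left (Submodule.mem_span_singleton_self _)
    have e2 : idn ∈ Submodule.span ℂ {(1 : ℕ → ℂ)} ⊔ Submodule.span ℂ {idn} :=
      Submodule.mem_sup_right (Submodule.mem_span_singleton_self _)
    exact Submodule.add_mem _ (Submodule.smul_mem _ _ e1)
      (Submodule.smul_mem _ _ (Submodule.add_mem _ e2 e1))
  obtain ⟨W, hW, hWp⟩ := exists_prod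
    (fun i => V i ⊔ (Submodule.span ℂ {(1 : ℕ → ℂ)} ⊔ Submodule.span ℂ {idn}))
    (fun i => (hV i).sup hU) Finset.univ
  obtain ⟨d, hd⟩ := exists_order hW
  let v : ℕ → Fin r → (ℕ → ℂ) := fun κ i =>
    sh (L i) + ((κ : ℂ) - 2) • (1 : ℕ → ℂ) + (-2 : ℂ) • idn
  have hv : ∀ κ i, v κ i ∈ V i ⊔ (Submodule.span ℂ {(1 : ℕ → ℂ)} ⊔ Submodule.span ℂ {idn}) := by
    intro κ i
    refine Submodule.add_mem _ (Submodule.add_mem _ (Submodule.mem_sup_left (hVL i)) ?_) ?_
    · exact Submodule.smul_mem _ _ (Submodule.mem_sup_right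
        (Submodule.mem_sup_left (Submodule.mem_span_singleton_self _)))
    · exact Submodule.smul_mem _ _ (Submodule.mem_sup_right
        (Submodule.mem_sup_right (Submodule.mem_span_singleton_self _)))
  have hvn : ∀ κ i n, v κ i n = L i (n + 1) - (2 * (n + 1) - κ) := by
    intro κ i n
    simp only [v, Pi.add_apply, Pi.smul_apply, sh_apply, Pi.one_apply, smul_eq_mul, idn]
    ring
  have hvan : ∀ κ n : ℕ, d ≤ 2 ^ κ → 2 ^ κ ≤ n →
      ∃ i, L i (n + 1) = 2 * ((n : ℂ) + 1) - (κ : ℂ) := by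
    intro κ n hκ hn
    have h1 := hd _ (hWp (v κ) (hv κ)) (2 ^ κ) (fun j hj => by
      rw [Finset.prod_apply]
      refine Finset.prod_eq_zero (Finset.mem_univ (ι (2 ^ κ + j + 1))) ?_
      rw [hvn, sub_eq_zero]
      have h2 := hι (2 ^ κ + j + 1) (by omega)
      have h3 := hD κ (2 ^ κ + j + 1) (by omega) (by rw [pow_succ]; omega)
      rw [← h2]
      have h4 : ((D (2 ^ κ + j + 1) : ℕ) : ℂ) + κ = 2 * ((2 ^ κ + j + 1 : ℕ) : ℂ) := by
        exact_mod_cast h3
      push_cast at h4 ⊢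
      linear_combination h4) n hn
    rw [Finset.prod_apply, Finset.prod_eq_zero_iff] at h1
    obtain ⟨i, -, hi⟩ := h1
    rw [hvn, sub_eq_zero] at hi
    exact ⟨i, hi⟩
  have hd2 : d ≤ 2 ^ d := Nat.lt_two_pow_self.le
  have hκ : ∀ κ : Fin (r + 1), ∃ i, L i (2 ^ (d + r) + 1) =
      2 * (((2 ^ (d + r) : ℕ) : ℂ) + 1) - ((d + κ : ℕ) : ℂ) := by
    intro κ
    have hk := κ.2
    exact hvan (d + κ) (2 ^ (d + r)) (hd2.trans (Nat.pow_le_pow_right (by norm_num) (by omega)))
      (Nat.pow_le_pow_right (by norm_num) (by omega))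
  choose i hi using hκ
  have hinj : Function.Injective i := by
    intro κ κ' hkk
    have h1 := hi κ
    rw [hkk, hi κ'] at h1
    have h2 : ((d + κ' : ℕ) : ℂ) = ((d + κ : ℕ) : ℂ) := by linear_combination -h1
    have h3 : d + (κ' : ℕ) = d + κ := by exact_mod_cast h2
    exact Fin.ext (by omega)
  have := Fintype.card_le_of_injective i hinj
  simp at this

end Pool.Agent.H9.DegSeq
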